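import Mathlib
import Pool.Agent.Lib.MP_85963d_gt.Interfaces
import Pool.Agent.Lib.MP_85963d_gt.H72.Det

/-!
# Module FOUR: Fourier decomposition of a sector
-/

set_option autoImplicit false

open MeasureTheory Set Filter Topology Quaternion
open scoped Real ContDiff

namespace Pool.Agent.MP85963d.H19

open SF

/-! ### rotations about the third axis -/

theorem rotK_mul_qJ (α : ℝ) : rot qK α * qJ = qJ * rot qK (-α) := by
  simp only [rot, neg_div, Real.cos_neg, Real.sin_neg, add_mul, mul_add, smul_mul_assoc,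
    mul_smul_comm, one_mul, mul_one, qK_mul_qJ, qJ_mul_qK]
  module

theorem rotK_two_pi : rot qK (2 * π) = -1 := by
  simp [rot]

theorem rotK_add (α β : ℝ) (x : ℍ) : rot qK (α + β) * x = rot qK α * (rot qK β * x) := by
  rw [rot_add isImUnit_K, mul_assoc]

/-- functions even on the rotation orbits and continuous along them -/
structure Orb (m : ℕ) (f : ℍ → ℝ) : Prop where
  sec : InSec m f
  cont : ∀ x : ℍ, Continuous fun α : ℝ => f (rot qK α * x)

theorem continuous_orbit {f : ℍ → ℝ} (hf : ContinuousOn f {0}ᶜ) (x : ℍ) :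
    Continuous fun α : ℝ => f (rot qK α * x) := by
  by_cases hx : x = 0
  · subst hx; simp only [mul_zero]; exact continuous_const
  · exact hf.comp_continuous ((continuous_rot qK).mul continuous_const)
      fun α => lrot_ne_zero isImUnit_K hx α

section

variable {m : ℕ} {f : ℍ → ℝ}

theorem Orb.anti (h : Orb m f) (x : ℍ) (α : ℝ) :
    f (rot qK (α + π / m) * x) = - f (rot qK α * x) := by
  rw [add_comm, rotK_add]; exact h.sec.rot _

theorem cos_anti (hm : 1 ≤ m) {k : ℕ} (hk : Odd k) (α β : ℝ) :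
    Real.cos ((m * k : ℕ) * (α + π / m - β)) = - Real.cos ((m * k : ℕ) * (α - β)) := by
  have hm0 : (m : ℝ) ≠ 0 := by positivity
  obtain ⟨j, rfl⟩ := hk
  have : ((m * (2 * j + 1) : ℕ) : ℝ) * (α + π / m - β)
      = ((m * (2 * j + 1) : ℕ) : ℝ) * (α - β) + π + (j : ℝ) * (2 * π) := by
    push_cast
    field_simp
    ring
  rw [this, Real.cos_add_nat_mul_two_pi, Real.cos_add_pi]

/-- the projection to the mode `K` -/
noncomputable def pj (m K : ℕ) (f : ℍ → ℝ) (x : ℍ) : ℝ :=
  (2 / (π / m)) * ∫ α in (0:ℝ)..(π / m), Real.cos (K * α) * f (rot qK α * x)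

theorem shift_int (hm : 1 ≤ m) {k : ℕ} (hk : Odd k) (h : Orb m f) (x : ℍ) (β c : ℝ) :
    ∫ α in c..(c + π / m), Real.cos ((m * k : ℕ) * (α - β)) * f (rot qK α * x)
      = ∫ α in (0:ℝ)..(π / m), Real.cos ((m * k : ℕ) * (α - β)) * f (rot qK α * x) := by
  have hp : Function.Periodic
      (fun α : ℝ => Real.cos ((m * k : ℕ) * (α - β)) * f (rot qK α * x)) (π / m) := by
    intro α
    simp only []
    rw [cos_anti hm hk, h.anti]
    ring
  have := hp.intervalIntegral_add_eq c 0
  rwa [zero_add] at this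

theorem pj_rot (hm : 1 ≤ m) {k : ℕ} (hk : Odd k) (h : Orb m f) (x : ℍ) (β : ℝ) :
    pj m (m * k) f (rot qK β * x)
      = (2 / (π / m)) * ∫ α in (0:ℝ)..(π / m), Real.cos ((m * k : ℕ) * (α - β)) * f (rot qK α * x) := by
  rw [pj]
  congr 1
  rw [← shift_int hm hk h x β β]
  have h1 := intervalIntegral.integral_comp_add_right
    (fun α : ℝ => Real.cos ((m * k : ℕ) * (α - β)) * f (rot qK α * x)) (a := 0) (b := π / m) β
  rw [zero_add, add_comm (π / m) β] at h1
  rw [← h1]
  congr 1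
  funext α
  rw [add_sub_cancel_right, rotK_add]

theorem pj_int_add (h : Orb m f) (K : ℕ) (x : ℍ) (β : ℝ) :
    (∫ α in (0:ℝ)..(π / m), Real.cos (K * (α - β)) * f (rot qK α * x))
     = Real.cos (K * β) * (∫ α in (0:ℝ)..(π / m), Real.cos (K * α) * f (rot qK α * x))
      + Real.sin (K * β) * (∫ α in (0:ℝ)..(π / m), Real.sin (K * α) * f (rot qK α * x)) := by
  rw [← intervalIntegral.integral_const_mul, ← intervalIntegral.integral_const_mul,
    ← intervalIntegral.integral_add]
  · congr 1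
    funext α
    rw [mul_sub, Real.cos_sub]
    ring
  · apply Continuous.intervalIntegrable
    have h1 : Continuous fun α : ℝ => Real.cos (K * α) := by fun_prop
    exact (h1.mul (h.cont x)).const_mul _
  · apply Continuous.intervalIntegrable
    have h1 : Continuous fun α : ℝ => Real.sin (K * α) := by fun_prop
    exact (h1.mul (h.cont x)).const_mul _

theorem pj_mode (hm : 1 ≤ m) {k : ℕ} (hk : Odd k) (h : Orb m f) : Mode (m * k) (pj m (m * k) f) := by
  refine ⟨fun β x => ?_, fun x => ?_⟩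
  · rw [pj_rot hm hk h, pj_rot hm hk h, pj_int_add h, pj_int_add h, pj, mul_neg, Real.cos_neg,
      Real.sin_neg]
    ring
  · have h1 := shift_int hm hk h x 0 (-(π / m))
    rw [neg_add_cancel] at h1
    simp only [sub_zero] at h1
    rw [pj, pj, ← h1]
    congr 1
    have h2 := intervalIntegral.integral_comp_neg
      (fun α : ℝ => Real.cos ((m * k : ℕ) * α) * f (rot qK α * x)) (a := 0) (b := π / m)
    rw [neg_zero] at h2
    rw [← h2]
    congr 1
    funext α
    rw [← mul_assoc, rotK_mul_qJ, mul_assoc, h.sec.mulJ, mul_neg, Real.cos_neg]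

/-- Fourier uniqueness for antiperiodic functions -/
theorem fourier_zero (hm : 1 ≤ m) {g : ℝ → ℝ} (hg : Continuous g)
    (ha : ∀ t, g (t + π / m) = - g t)
    (hc : ∀ k : ℕ, Odd k → ∫ t in (0:ℝ)..(π / m), Real.cos ((m * k : ℕ) * t) * g t = 0)
    (hs : ∀ k : ℕ, Odd k → ∫ t in (0:ℝ)..(π / m), Real.sin ((m * k : ℕ) * t) * g t = 0) (t : ℝ) :
    g t = 0 := by
  have hm0 : (0:ℝ) < m := by positivity
  have hm0' : (m : ℂ) ≠ 0 := by exact_mod_cast hm0.ne'
  have hT : Fact (0 < π / m) := ⟨by positivity⟩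
  have hπ : (π : ℂ) ≠ 0 := by exact_mod_cast Real.pi_ne_zero
  set G : ℝ → ℂ := fun t => (g t : ℂ) * Complex.exp (m * t * Complex.I) with hG
  have hper : Function.Periodic G (π / m) := by
    intro t
    simp only [hG]
    rw [ha]
    have : (m : ℂ) * ((t + π / m : ℝ) : ℂ) * Complex.I = m * t * Complex.I + π * Complex.I := by
      push_cast
      field_simp
    rw [this, Complex.exp_add, Complex.exp_pi_mul_I]
    push_cast
    ring
  have hGc : Continuous G := by
    simp only [hG]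
    fun_prop
  let F : C(AddCircle (π / m), ℂ) := ⟨hper.lift, by
    exact hGc.quotient_liftOn' _⟩
  have hF : ∀ t : ℝ, F (t : AddCircle (π / m)) = G t := fun t => hper.lift_coe t
  have hint : ∀ j : ℤ, Odd j →
      ∫ t in (0:ℝ)..(π / m), Complex.exp (-(m * j * t * Complex.I)) * (g t : ℂ) = 0 := by
    intro j hj
    have hk : Odd j.natAbs := Int.natAbs_odd.2 hj
    have h1 := hc _ hk
    have h2 := hs _ hk
    have e : ∃ s : ℂ, ∀ t : ℝ, Complex.exp (-(m * j * t * Complex.I)) * (g t : ℂ)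
        = ((Real.cos ((m * j.natAbs : ℕ) * t) * g t : ℝ) : ℂ)
          - s * ((Real.sin ((m * j.natAbs : ℕ) * t) * g t : ℝ) : ℂ) := by
      rcases Int.natAbs_eq j with hj1 | hj1
      · refine ⟨Complex.I, fun t => ?_⟩
        have hj2 : (j : ℂ) = (j.natAbs : ℂ) := by
          conv_lhs => rw [hj1]
          rw [Int.cast_natCast]
        rw [hj2, ← neg_mul, Complex.exp_mul_I, Complex.cos_neg, Complex.sin_neg]
        push_cast
        ring
      · refine ⟨-Complex.I, fun t => ?_⟩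
        have hj2 : (j : ℂ) = -(j.natAbs : ℂ) := by
          conv_lhs => rw [hj1]
          rw [Int.cast_neg, Int.cast_natCast]
        have hj3 : -((m : ℂ) * (-(j.natAbs : ℂ)) * t * Complex.I)
          = ((m : ℂ) * (j.natAbs : ℂ) * t) * Complex.I := by ring
        rw [hj2, hj3, Complex.exp_mul_I]
        push_cast
        ring
    obtain ⟨s, e⟩ := e
    simp_rw [e]
    rw [intervalIntegral.integral_sub, intervalIntegral.integral_const_mul,
      intervalIntegral.integral_ofReal, intervalIntegral.integral_ofReal, h1, h2]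
    · simp
    · apply Continuous.intervalIntegrable
      fun_prop
    · apply Continuous.intervalIntegrable
      fun_prop
  have hcoef : ∀ n : ℤ, fourierCoeff F n = 0 := by
    intro n
    rw [fourierCoeff_eq_intervalIntegral F n 0, zero_add]
    have : ∀ t : ℝ, @fourier (π / m) (-n) t • F (t : AddCircle (π / m))
        = Complex.exp (-(m * (2 * n - 1 : ℤ) * t * Complex.I)) * (g t : ℂ) := by
      intro t
      rw [hF, hG, fourier_coe_apply, smul_eq_mul]
      simp only []
      rw [mul_left_comm, ← Complex.exp_add, mul_comm]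
      congr 2
      push_cast
      field_simp
      ring
    simp_rw [this]
    rw [hint _ ⟨n - 1, by ring⟩, smul_zero]
  have hsum : Summable (fourierCoeff F) := by
    have : fourierCoeff F = 0 := by funext n; exact hcoef n
    rw [this]; exact summable_zero
  have h3 := has_pointwise_sum_fourier_series_of_summable hsum (t : AddCircle (π / m))
  simp only [hcoef, zero_smul] at h3
  have h4 := h3.unique hasSum_zero
  rw [hF, hG] at h4
  simp only [mul_eq_zero, Complex.exp_ne_zero, or_false] at h4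
  exact_mod_cast h4

/-- a function in the sector all of whose projections vanish is zero -/
theorem zero_of_pj (hm : 1 ≤ m) (h : Orb m f)
    (hz : ∀ k : ℕ, Odd k → ∀ x : ℍ, x ≠ 0 → pj m (m * k) f x = 0) {x : ℍ} (hx : x ≠ 0) : f x = 0 := by
  have hm0 : (0:ℝ) < m := by positivity
  have hc0 : (2 / (π / m) : ℝ) ≠ 0 := by positivity
  have hc : ∀ k : ℕ, Odd k →
      ∫ t in (0:ℝ)..(π / m), Real.cos ((m * k : ℕ) * t) * f (rot qK t * x) = 0 := by
    intro k hk
    have := hz k hk x hx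
    rw [pj] at this
    exact (mul_eq_zero.1 this).resolve_left hc0
  have hs : ∀ k : ℕ, Odd k →
      ∫ t in (0:ℝ)..(π / m), Real.sin ((m * k : ℕ) * t) * f (rot qK t * x) = 0 := by
    intro k hk
    have hK : ((m * k : ℕ) : ℝ) ≠ 0 := by
      have : 0 < k := hk.pos
      positivity
    have h1 := hz k hk (rot qK (π / 2 / (m * k : ℕ)) * x) (lrot_ne_zero isImUnit_K hx _)
    rw [pj_rot hm hk h, pj_int_add h, hc k hk, mul_zero, zero_add,
      mul_div_cancel₀ _ hK, Real.sin_pi_div_two, one_mul] at h1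
    exact (mul_eq_zero.1 h1).resolve_left hc0
  have := fourier_zero hm (h.cont x) (h.anti x) hc hs 0
  rwa [rot_zero, one_mul] at this

theorem pj_isU (hu : IsU f) (m K : ℕ) : IsU (pj m K f) := by
  refine ⟨fun x t => ?_, fun x => ?_⟩
  · simp only [pj, ← mul_assoc, hu.rotI]
  · simp only [pj, ← mul_assoc, hu.mulK]

theorem pj_cts (hf : Cts f) (m K : ℕ) : Cts (pj m K f) := by
  refine ⟨?_, fun r x hr hx => ?_⟩
  · apply ContinuousOn.mul continuousOn_const
    rw [continuousOn_iff_continuous_domRestrict]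
    apply intervalIntegral.continuous_parametric_intervalIntegral_of_continuous'
      (f := fun (x : ({0}ᶜ : Set ℍ)) (α : ℝ) => Real.cos (K * α) * f (rot qK α * x.1))
    apply Continuous.mul (by fun_prop)
    apply hf.cont.comp_continuous
    · exact ((continuous_rot qK).comp continuous_snd).mul
        (continuous_subtype_val.comp continuous_fst)
    · rintro ⟨x, α⟩
      exact lrot_ne_zero isImUnit_K x.2 α
  · simp only [pj]
    congr 2
    funext α
    rw [mul_smul_comm, hf.hom r _ hr (lrot_ne_zero isImUnit_K hx α)]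

theorem pj_kerK {w : ℍ → ℝ} (hw : Cts w) (hwr : RotInv w) (hf : Cts f) (hk : KerK w f)
    (m K : ℕ) : KerK w (pj m K f) := by
  intro x hx
  have h1 : ∀ t : ℝ, w (x * rot qK t) * pj m K f (x * rot qK t)
      = ∫ α in (0:ℝ)..(π / m), (2 / (π / m)) * Real.cos (K * α) *
        (w (rot qK α * x * rot qK t) * f (rot qK α * x * rot qK t)) := by
    intro t
    rw [pj, ← mul_assoc, ← intervalIntegral.integral_const_mul]
    congr 1
    funext α
    rw [mul_assoc (rot qK α) x, hwr.rot]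
    ring
  have h2 : ∀ α : ℝ, ∫ t in (0:ℝ)..(2 * π), (2 / (π / m)) * Real.cos (K * α) *
        (w (rot qK α * x * rot qK t) * f (rot qK α * x * rot qK t)) = 0 := by
    intro α
    rw [intervalIntegral.integral_const_mul]
    have := hk (rot qK α * x) (lrot_ne_zero isImUnit_K hx α)
    rw [avgK] at this
    have h3 := (mul_eq_zero.1 this).resolve_left (by positivity)
    rw [h3, mul_zero]
  rw [avgK]
  simp_rw [h1]
  rw [intervalIntegral_intervalIntegral_swap]
  · simp_rw [h2]
    simp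
  · have hcont : Continuous (Function.uncurry fun t α : ℝ => (2 / (π / m)) * Real.cos (K * α) *
        (w (rot qK α * x * rot qK t) * f (rot qK α * x * rot qK t))) := by
      have hm1 : Continuous fun p : ℝ × ℝ => rot qK p.2 * x * rot qK p.1 :=
        (((continuous_rot qK).comp continuous_snd).mul continuous_const).mul
          ((continuous_rot qK).comp continuous_fst)
      have hm2 : ∀ p : ℝ × ℝ, rot qK p.2 * x * rot qK p.1 ∈ ({0}ᶜ : Set ℍ) := fun p =>
        mul_ne_zero (lrot_ne_zero isImUnit_K hx p.2) (rot_ne_zero isImUnit_K _)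
      have h4 := hw.cont.comp_continuous hm1 hm2
      have h5 := hf.cont.comp_continuous hm1 hm2
      have h6 : Continuous fun p : ℝ × ℝ => (2 / (π / m)) * Real.cos (K * p.2) := by fun_prop
      exact h6.mul (h4.mul h5)
    apply (hcont.continuousOn.integrableOn_compact
      (isCompact_uIcc.prod isCompact_uIcc)).mono_set
    exact Set.prod_mono uIoc_subset_uIcc uIoc_subset_uIcc

/-- the first part of FOUR -/
theorem ker_part (m : ℕ) (w : ℍ → ℝ) (hm : 1 ≤ m) (hw : Cts w) (hwr : RotInv w)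
    (h : ∀ k : ℕ, Odd k → KerTriv (m * k) w) : SecKerTriv m w := by
  intro y hy hu hs hk x hx
  have ho : Orb m y := ⟨hs, continuous_orbit hy.cont⟩
  exact zero_of_pj hm ho (fun k hk' => h k hk' _ (pj_cts hy m _) (pj_isU hu m _)
    (pj_mode hm hk' ho) (pj_kerK hw hwr hy hk m _)) hx

end

/-! ### the determinant -/

/-- modes `m k`, `k` odd, are in the sector -/
theorem inSec_of_mode {m k : ℕ} (hm : 1 ≤ m) (hk : Odd k) {y : ℍ → ℝ} (hy : Mode (m * k) y)
    (he : ∀ x : ℍ, y (-x) = y x) : InSec m y := by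
  have hm0 : (m : ℝ) ≠ 0 := by positivity
  refine ⟨fun x => ?_, hy.mulJ⟩
  have hcos : Real.cos ((m * k : ℕ) * (π / m)) = -1 := by
    have := cos_anti hm hk 0 0
    simpa using this
  -- second differences
  set g : ℕ → ℝ := fun j => (-1) ^ j * y (rot qK (j * (π / m)) * x) with hg
  have h2 : ∀ j : ℕ, g (j + 2) = 2 * g (j + 1) - g j := by
    intro j
    have h1 := hy.rot (π / m) (rot qK ((j + 1 : ℕ) * (π / m)) * x)
    rw [hcos, ← rotK_add, ← rotK_add] at h1
    have e1 : π / m + ((j + 1 : ℕ) : ℝ) * (π / m) = ((j + 2 : ℕ) : ℝ) * (π / m) := by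
      push_cast; ring
    have e2 : -(π / m) + ((j + 1 : ℕ) : ℝ) * (π / m) = (j : ℝ) * (π / m) := by
      push_cast; ring
    rw [e1, e2] at h1
    simp only [hg, pow_succ]
    linear_combination ((-1) ^ j) * h1
  have h3 : ∀ j : ℕ, g j = g 0 + j * (g 1 - g 0) ∧ g (j + 1) = g 0 + (j + 1) * (g 1 - g 0) := by
    intro j
    induction j with
    | zero => simp
    | succ j ih =>
      refine ⟨by rw [ih.2]; push_cast; ring, ?_⟩
      rw [h2 j, ih.1, ih.2]
      push_cast
      ring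
  have h4 : g (2 * m) = g 0 := by
    simp only [hg]
    have e1 : ((2 * m : ℕ) : ℝ) * (π / m) = 2 * π := by
      push_cast; field_simp
    rw [e1, rotK_two_pi, neg_one_mul, he, pow_mul]
    simp [rot_zero]
  have h5 := (h3 (2 * m)).1
  rw [h4] at h5
  have h6 : g 1 - g 0 = 0 := by
    have : ((2 * m : ℕ) : ℝ) * (g 1 - g 0) = 0 := by linarith
    rcases mul_eq_zero.1 this with h | h
    · exfalso
      have : (2 * m : ℕ) ≠ 0 := by omega
      exact this (by exact_mod_cast h)
    · exact h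
  simp only [hg] at h6
  simp [rot_zero] at h6
  linarith

theorem orb_of_SF {m : ℕ} {y : SF} (h : InSec m y) : Orb m y := ⟨h, continuous_orbit y.continuousOn⟩

theorem SNk_le_SecN {m k n : ℕ} (hm : 1 ≤ m) (hk : Odd k) : SNk (m * k) n ≤ SecN m n := by
  intro y hy
  exact ⟨hy.1, inSec_of_mode hm hk hy.2 y.even⟩

/-- rotating the arguments of the bilinear form -/
theorem Bil_rot (hP : PsiFacts) {w : ℍ → ℝ} (hwr : RotInv w) {n : ℕ} (α : ℝ) (y z η θ : SF)
    (hη : η ∈ UN n) (hθ : θ ∈ UN n) (hyz : ∀ x : ℍ, z x = y (rot qK α * x))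
    (hηθ : ∀ x : ℍ, θ x = η (rot qK α * x)) : Bil w z θ = Bil w y η := by
  have h1 := hP.lcomp n (rot qK α) η θ (rot_ne_zero isImUnit_K α) hη hθ hηθ
  rw [Bil, Bil, ← integral_shell_lmul (norm_rot isImUnit_K α) fun x => w x * y x * (psi η) x]
  congr 1
  funext x
  rw [h1, hyz, hwr.rot]

theorem exists_rot (hM : MNFacts) {n : ℕ} {y : SF} (hy : y ∈ UN n) (α : ℝ) :
    ∃ z ∈ UN n, ∀ x : ℍ, z x = y (rot qK α * x) := by
  obtain ⟨G, hG, h⟩ := hM.lcomp n (rot qK α) y (rot_ne_zero isImUnit_K α) hy.1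
  refine ⟨G, ⟨hG, ⟨fun x t => ?_, fun x => ?_⟩⟩, h⟩
  · rw [h, h, ← mul_assoc, hy.2.rotI]
  · rw [h, h, ← mul_assoc, hy.2.mulK]

/-- different modes are orthogonal -/
theorem Bil_orth (hM : MNFacts) (hP : PsiFacts) {w : ℍ → ℝ} (hw : Cts w) (hwr : RotInv w) {n : ℕ}
    {K K' : ℕ} (hKK : K ≠ K') {y η : SF} (hy : y ∈ SNk K n) (hη : η ∈ SNk K' n) :
    Bil w y η = 0 := by
  -- the angle
  obtain ⟨α, hα⟩ : ∃ α : ℝ, Real.cos (K * α) ≠ Real.cos (K' * α) := by
    have hs : (0:ℝ) < K + K' := by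
      have : 0 < K + K' := by omega
      exact_mod_cast this
    refine ⟨π / (K + K'), fun h => hKK ?_⟩
    have b1 : (K:ℝ) * (π / (K + K')) ≤ π := by
      rw [mul_div_assoc', div_le_iff₀ hs]
      have : (0:ℝ) ≤ K' := Nat.cast_nonneg _
      nlinarith [Real.pi_pos]
    have b2 : (K':ℝ) * (π / (K + K')) ≤ π := by
      rw [mul_div_assoc', div_le_iff₀ hs]
      have : (0:ℝ) ≤ K := Nat.cast_nonneg _
      nlinarith [Real.pi_pos]
    have := Real.injOn_cos ⟨by positivity, b1⟩ ⟨by positivity, b2⟩ h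
    have h3 : (K:ℝ) = K' := mul_right_cancel₀ (by positivity) this
    exact_mod_cast h3
  obtain ⟨y₁, hy₁, e₁⟩ := exists_rot hM hy.1 α
  obtain ⟨y₂, hy₂, e₂⟩ := exists_rot hM hy.1 (-α)
  obtain ⟨η₁, hη₁, f₁⟩ := exists_rot hM hη.1 α
  obtain ⟨η₂, hη₂, f₂⟩ := exists_rot hM hη.1 (-α)
  have hs1 : y₁ + y₂ = (2 * Real.cos (K * α)) • y := by
    apply SF.ext'
    intro x _
    rw [SF.add_apply, SF.smul_apply, e₁, e₂, hy.2.rot]
  have hs2 : η₁ + η₂ = (2 * Real.cos (K' * α)) • η := by
    apply SF.ext'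
    intro x _
    rw [SF.add_apply, SF.smul_apply, f₁, f₂, hη.2.rot]
  have b1 : Bil w y₁ η = Bil w y η₂ := by
    symm
    apply Bil_rot hP hwr (-α) y₁ y η η₂ hη.1 hη₂ _ f₂
    intro x
    rw [e₁, ← rotK_add, add_neg_cancel, rot_zero, one_mul]
  have b2 : Bil w y₂ η = Bil w y η₁ := by
    symm
    apply Bil_rot hP hwr α y₂ y η η₁ hη.1 hη₁ _ f₁
    intro x
    rw [e₂, ← rotK_add, neg_add_cancel, rot_zero, one_mul]
  have h1 := H72.Bil_add_left hw y₁ y₂ η
  have h2 := H72.Bil_add_right hP hw y hη₁ hη₂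
  rw [hs1, H72.Bil_smul_left, b1, b2] at h1
  rw [hs2, H72.Bil_smul_right hP w _ y hη.1] at h2
  have h3 : (Real.cos (K * α) - Real.cos (K' * α)) * Bil w y η = 0 := by linarith
  exact (mul_eq_zero.1 h3).resolve_left (sub_ne_zero.2 hα)

/-- a basis of a direct sum of two subspaces -/
theorem basis_sup {V : Type} [AddCommGroup V] [Module ℝ V] (W₁ W₂ : Submodule ℝ V)
    (hd : Disjoint W₁ W₂) {d₁ d₂ : ℕ} (b₁ : Module.Basis (Fin d₁) ℝ W₁)
    (b₂ : Module.Basis (Fin d₂) ℝ W₂) :
    ∃ b : Module.Basis (Fin (d₁ + d₂)) ℝ ↥(W₁ ⊔ W₂),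
      (∀ i, (b (finSumFinEquiv (Sum.inl i)) : V) = b₁ i) ∧
      ∀ i, (b (finSumFinEquiv (Sum.inr i)) : V) = b₂ i := by
  let φ : (W₁ × W₂) →ₗ[ℝ] ↥(W₁ ⊔ W₂) :=
    LinearMap.coprod (Submodule.inclusion le_sup_left) (Submodule.inclusion le_sup_right)
  have hφ : ∀ p : W₁ × W₂, ((φ p : ↥(W₁ ⊔ W₂)) : V) = (p.1 : V) + (p.2 : V) := fun p => rfl
  have hinj : Function.Injective φ := by
    rw [← LinearMap.ker_eq_bot, LinearMap.ker_eq_bot']
    rintro ⟨p, q⟩ h
    have h1 := congrArg Subtype.val h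
    rw [hφ] at h1
    have h2 : (p : V) = -(q : V) := eq_neg_of_add_eq_zero_left h1
    have h3 : (p : V) ∈ W₁ ⊓ W₂ := ⟨p.2, by rw [h2]; exact W₂.neg_mem q.2⟩
    rw [hd.eq_bot, Submodule.mem_bot] at h3
    have h4 : (q : V) = 0 := by rw [h3] at h2; exact neg_eq_zero.1 h2.symm
    exact Prod.ext (Subtype.ext h3) (Subtype.ext h4)
  have hsurj : Function.Surjective φ := by
    rintro ⟨z, hz⟩
    obtain ⟨p, hp, q, hq, rfl⟩ := Submodule.mem_sup.1 hz
    exact ⟨(⟨p, hp⟩, ⟨q, hq⟩), rfl⟩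
  have hbij : Function.Bijective φ := ⟨hinj, hsurj⟩
  refine ⟨((b₁.prod b₂).map (LinearEquiv.ofBijective φ hbij)).reindex finSumFinEquiv,
    fun i => ?_, fun i => ?_⟩
  · rw [Module.Basis.reindex_apply, Equiv.symm_apply_apply, Module.Basis.map_apply,
      LinearEquiv.ofBijective_apply, hφ, Module.Basis.prod_apply_inl_fst,
      Module.Basis.prod_apply_inl_snd]
    simp
  · rw [Module.Basis.reindex_apply, Equiv.symm_apply_apply, Module.Basis.map_apply,
      LinearEquiv.ofBijective_apply, hφ, Module.Basis.prod_apply_inr_fst,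
      Module.Basis.prod_apply_inr_snd]
    simp

/-- determinants of orthogonal sums -/
theorem negDet_sup {w : ℍ → ℝ} {W₁ W₂ : Submodule ℝ SF}
    (o12 : ∀ y ∈ W₁, ∀ η ∈ W₂, Bil w y η = 0) (o21 : ∀ y ∈ W₂, ∀ η ∈ W₁, Bil w y η = 0)
    (hd : Disjoint W₁ W₂) (hn : NegDet W₁ w) (hp : PosDet W₂ w) : NegDet (W₁ ⊔ W₂) w := by
  obtain ⟨d₁, b₁, h₁⟩ := hn
  obtain ⟨d₂, b₂, h₂⟩ := hp
  obtain ⟨b, hb1, hb2⟩ := basis_sup W₁ W₂ hd b₁ b₂
  refine ⟨d₁ + d₂, b, ?_⟩
  have h3 : detW b w = detW b₁ w * detW b₂ w := by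
    rw [detW, ← Matrix.det_submatrix_equiv_self finSumFinEquiv]
    have : (Matrix.of fun i j : Fin (d₁ + d₂) => Bil w (b j : SF) (b i : SF)).submatrix
        finSumFinEquiv finSumFinEquiv
        = Matrix.fromBlocks (Matrix.of fun i j : Fin d₁ => Bil w (b₁ j : SF) (b₁ i : SF)) 0 0
          (Matrix.of fun i j : Fin d₂ => Bil w (b₂ j : SF) (b₂ i : SF)) := by
      ext i j
      rcases i with i | i <;> rcases j with j | j
      · rw [Matrix.submatrix_apply, Matrix.of_apply, hb1, hb1]; rfl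
      · rw [Matrix.submatrix_apply, Matrix.of_apply, hb1, hb2]
        exact o21 _ (b₂ j).2 _ (b₁ i).2
      · rw [Matrix.submatrix_apply, Matrix.of_apply, hb1, hb2]
        exact o12 _ (b₁ j).2 _ (b₂ i).2
      · rw [Matrix.submatrix_apply, Matrix.of_apply, hb2, hb2]; rfl
    rw [this, Matrix.det_fromBlocks_zero₂₁]
    rfl
  rw [h3]
  exact mul_neg_of_neg_of_pos h₁ h₂

/-- evaluations at finitely many points are coordinates, abstract form -/
theorem eval_abs {X V : Type} [AddCommGroup V] [Module ℝ V] [FiniteDimensional ℝ V]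
    (ev : X → (V →ₗ[ℝ] ℝ)) (h : ∀ F : V, (∀ x, ev x F = 0) → F = 0) :
    ∃ (d : ℕ) (p : Fin d → X) (e : Fin d → V), ∀ F : V, F = ∑ i, ev (p i) F • e i := by
  have hspan : Submodule.span ℝ (Set.range ev) = ⊤ := by
    apply Submodule.span_eq_top_of_ne_zero
    intro z hz
    by_contra hcon
    push Not at hcon
    exact hz (h z fun x => hcon (ev x) ⟨x, rfl⟩)
  obtain ⟨d, f, hf1, hf2⟩ : ∃ (d : ℕ) (f : Fin d → (V →ₗ[ℝ] ℝ)), (∀ i, f i ∈ Set.range ev) ∧
      Submodule.span ℝ (Set.range f) = Submodule.span ℝ (Set.range ev) := by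
    obtain ⟨f, hf1, hf2, -⟩ := Submodule.exists_fun_fin_finrank_span_eq ℝ (Set.range ev)
    exact ⟨_, f, hf1, hf2⟩
  choose p hp using hf1
  let Φ : V →ₗ[ℝ] (Fin d → ℝ) := LinearMap.pi fun i => ev (p i)
  have hker : LinearMap.ker Φ = ⊥ := by
    rw [LinearMap.ker_eq_bot']
    intro F hF
    have h1 : ∀ l ∈ Submodule.span ℝ (Set.range f), l F = 0 := by
      intro l hl
      induction hl using Submodule.span_induction with
      | mem l hl =>
        obtain ⟨i, rfl⟩ := hl
        rw [← hp i]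
        exact congrFun hF i
      | zero => simp
      | add a b _ _ ha hb => simp [ha, hb]
      | smul c a _ ha => simp [ha]
    exact h F fun x => h1 (ev x) (by rw [hf2, hspan]; trivial)
  obtain ⟨L, hL⟩ := Φ.exists_leftInverse_of_injective hker
  refine ⟨d, p, fun i => L (Pi.single i 1), fun F => ?_⟩
  have h1 : L (Φ F) = F := by
    rw [← LinearMap.comp_apply, hL]; rfl
  have h2 : Φ F = ∑ i, ev (p i) F • (Pi.single i 1 : Fin d → ℝ) := by
    funext j
    simp [Φ, Finset.sum_apply, Pi.single_apply]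
  rw [h2, map_sum] at h1
  simp only [map_smul] at h1
  exact h1.symm

/-- evaluations at finitely many points are coordinates -/
theorem exists_eval (V : Submodule ℝ SF) [FiniteDimensional ℝ V] :
    ∃ (d : ℕ) (p : Fin d → ℍ) (e : Fin d → SF), (∀ i, e i ∈ V) ∧
      ∀ F ∈ V, ∀ x : ℍ, F x = ∑ i, F (p i) * e i x := by
  obtain ⟨d, p, e, h⟩ := eval_abs (X := ℍ) (V := V) (fun x =>
    { toFun := fun F => (F : SF) x
      map_add' := fun F G => by simp
      map_smul' := fun c F => by simp }) (by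
        intro F hF
        apply Subtype.ext
        apply SF.ext'
        intro x _
        have := hF x
        simpa using this)
  refine ⟨d, p, fun i => (e i : SF), fun i => (e i).2, fun F hF x => ?_⟩
  have h1 := h ⟨F, hF⟩
  have h2 := congrArg Subtype.val h1
  have h3 : F = ∑ i, F (p i) • (e i : SF) := by
    simpa using h2
  conv_lhs => rw [h3]
  rw [SF.sum_apply]
  simp only [SF.smul_apply]

theorem proj_mem (hM : MNFacts) {m n k : ℕ} (hm : 1 ≤ m) (hk : Odd k) {y : SF}
    (hy : y ∈ SecN m n) : ∃ z ∈ SNk (m * k) n, ∀ x : ℍ, z x = pj m (m * k) y x := by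
  have ho : Orb m y := orb_of_SF hy.2
  have := hM.finite n
  obtain ⟨d, p, e, he, h⟩ := exists_eval (MN n)
  have hz : ∀ x : ℍ, (∑ i, pj m (m * k) y (p i) • e i : SF) x = pj m (m * k) y x := by
    intro x
    rw [SF.sum_apply]
    simp only [SF.smul_apply]
    have h1 : ∀ α : ℝ, Real.cos ((m * k : ℕ) * α) * y (rot qK α * x)
        = ∑ i, (Real.cos ((m * k : ℕ) * α) * y (rot qK α * p i)) * e i x := by
      intro α
      obtain ⟨G, hG, hG'⟩ := hM.lcomp n (rot qK α) y (rot_ne_zero isImUnit_K α) hy.1.1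
      rw [← hG', h G hG x, Finset.mul_sum]
      refine Finset.sum_congr rfl fun i _ => ?_
      rw [hG']
      ring
    rw [pj]
    simp_rw [h1]
    rw [intervalIntegral.integral_finsetSum]
    · rw [Finset.mul_sum]
      refine Finset.sum_congr rfl fun i _ => ?_
      rw [intervalIntegral.integral_mul_const, pj]
      ring
    · intro i _
      apply Continuous.intervalIntegrable
      have h2 : Continuous fun α : ℝ => Real.cos ((m * k : ℕ) * α) := by fun_prop
      exact (h2.mul (ho.cont (p i))).mul_const _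
  have hmode := pj_mode hm hk ho
  have hu := pj_isU (f := y) hy.1.2 m (m * k)
  refine ⟨_, ⟨⟨(MN n).sum_mem fun i _ => (MN n).smul_mem _ (he i), ?_⟩, ?_⟩, hz⟩
  · exact ⟨fun x t => by rw [hz, hz, hu.rotI], fun x => by rw [hz, hz, hu.mulK]⟩
  · exact ⟨fun α x => by rw [hz, hz, hz, hmode.rot], fun x => by rw [hz, hz, hmode.mulJ]⟩

theorem int_cos {m : ℕ} (hm : 1 ≤ m) {c : ℤ} (hc : c ≠ 0) :
    ∫ t in (0:ℝ)..(π / m), Real.cos ((m * c : ℝ) * t) = 0 := by
  have hm0 : (m : ℝ) ≠ 0 := by positivity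
  have hc0 : (c : ℝ) ≠ 0 := by exact_mod_cast hc
  rw [intervalIntegral.integral_comp_mul_left (fun t => Real.cos t) (mul_ne_zero hm0 hc0),
    integral_cos, mul_zero, Real.sin_zero, sub_zero]
  have : (m : ℝ) * c * (π / m) = c * π := by field_simp
  rw [this, Real.sin_int_mul_pi, smul_zero]

/-- orthogonality of cosines -/
theorem pj_of_mode {m k k' : ℕ} (hm : 1 ≤ m) (hk' : Odd k') {f : ℍ → ℝ}
    (ho : Orb m f) (hf : Mode (m * k) f) (x : ℍ) :
    pj m (m * k') f x = if k = k' then f x else 0 := by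
  have hm0 : (m : ℝ) ≠ 0 := by positivity
  have hkp : 0 < k' := hk'.pos
  have c1 : Continuous fun α : ℝ => Real.cos ((m * k' : ℕ) * α) := by fun_prop
  have hneg : ∫ α in (0:ℝ)..(π / m), Real.cos ((m * k' : ℕ) * α) * f (rot qK (-α) * x)
      = ∫ α in (0:ℝ)..(π / m), Real.cos ((m * k' : ℕ) * α) * f (rot qK α * x) := by
    have h1 := shift_int hm hk' ho x 0 (-(π / m))
    rw [neg_add_cancel] at h1
    simp only [sub_zero] at h1
    rw [← h1]
    have h2 := intervalIntegral.integral_comp_neg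
      (fun α : ℝ => Real.cos ((m * k' : ℕ) * α) * f (rot qK α * x)) (a := 0) (b := π / m)
    rw [neg_zero] at h2
    rw [← h2]
    congr 1
    funext α
    rw [mul_neg, Real.cos_neg]
  have hsum : 2 * ∫ α in (0:ℝ)..(π / m), Real.cos ((m * k' : ℕ) * α) * f (rot qK α * x)
      = ∫ α in (0:ℝ)..(π / m), (Real.cos ((m * (k + k' : ℤ) : ℝ) * α)
          + Real.cos ((m * (k - k' : ℤ) : ℝ) * α)) * f x := by
    have h3 : 2 * ∫ α in (0:ℝ)..(π / m), Real.cos ((m * k' : ℕ) * α) * f (rot qK α * x)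
        = (∫ α in (0:ℝ)..(π / m), Real.cos ((m * k' : ℕ) * α) * f (rot qK α * x))
          + ∫ α in (0:ℝ)..(π / m), Real.cos ((m * k' : ℕ) * α) * f (rot qK (-α) * x) := by
      rw [hneg]; ring
    rw [h3, ← intervalIntegral.integral_add]
    · congr 1
      funext α
      rw [← mul_add, hf.rot]
      have e1 : (m * (k + k' : ℤ) : ℝ) * α = (m * k : ℕ) * α + (m * k' : ℕ) * α := by
        push_cast; ring
      have e2 : (m * (k - k' : ℤ) : ℝ) * α = (m * k : ℕ) * α - (m * k' : ℕ) * α := by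
        push_cast; ring
      rw [e1, e2, Real.cos_add, Real.cos_sub]
      ring
    · exact (c1.mul (ho.cont x)).intervalIntegrable _ _
    · exact (c1.mul ((ho.cont x).comp continuous_neg)).intervalIntegrable _ _
  rw [intervalIntegral.integral_mul_const, intervalIntegral.integral_add
    (Continuous.intervalIntegrable (by fun_prop) _ _)
    (Continuous.intervalIntegrable (by fun_prop) _ _),
    int_cos hm (by positivity), zero_add] at hsum
  split_ifs with h
  · subst h
    simp only [sub_self, Int.cast_zero, mul_zero, zero_mul, Real.cos_zero,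
      intervalIntegral.integral_const, sub_zero, smul_eq_mul, mul_one] at hsum
    rw [pj]
    have hpi := Real.pi_ne_zero
    field_simp
    field_simp at hsum
    linarith
  · rw [int_cos hm (sub_ne_zero.2 (by exact_mod_cast h)), zero_mul] at hsum
    rw [pj]
    have : ∫ α in (0:ℝ)..(π / m), Real.cos ((m * k' : ℕ) * α) * f (rot qK α * x) = 0 := by linarith
    rw [this, mul_zero]

theorem pj_sub {m K : ℕ} {f g : ℍ → ℝ} (hf : Orb m f) (hg : Orb m g) (x : ℍ) :
    pj m K (fun x => f x - g x) x = pj m K f x - pj m K g x := by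
  have c1 : Continuous fun α : ℝ => Real.cos (K * α) := by fun_prop
  rw [pj, pj, pj, ← mul_sub, ← intervalIntegral.integral_sub]
  · congr 2
    funext α
    ring
  · exact (c1.mul (hf.cont x)).intervalIntegrable _ _
  · exact (c1.mul (hg.cont x)).intervalIntegrable _ _

theorem eig_abs {V : Type} [AddCommGroup V] [Module ℝ V] [FiniteDimensional ℝ V]
    (D : V →ₗ[ℝ] V) : ∃ K₀ : ℕ, ∀ K : ℕ, K₀ ≤ K → ∀ y : V, D y = (-((K:ℝ) ^ 2)) • y → y = 0 := by
  have hfin : Set.Finite {μ : ℝ | Module.End.HasEigenvalue D μ} :=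
    Module.End.finite_hasEigenvalue (f := D)
  have hfin2 : Set.Finite {K : ℕ | Module.End.HasEigenvalue D (-((K:ℝ) ^ 2))} := by
    apply hfin.preimage (f := fun K : ℕ => (-((K:ℝ) ^ 2)))
    intro a _ b _ hab
    simp only [neg_inj] at hab
    have := (sq_eq_sq₀ (Nat.cast_nonneg a) (Nat.cast_nonneg b)).1 hab
    exact_mod_cast this
  obtain ⟨K₀, hK₀⟩ := hfin2.bddAbove
  refine ⟨K₀ + 1, fun K hK y hy => ?_⟩
  by_contra hne
  have : K ∈ {K : ℕ | Module.End.HasEigenvalue D (-((K:ℝ) ^ 2))} := by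
    apply Module.End.hasEigenvalue_of_hasEigenvector (x := y)
    rw [Module.End.hasEigenvector_iff, Module.End.mem_eigenspace_iff]
    exact ⟨hy, hne⟩
  have := hK₀ this
  omega

/-- high modes vanish in `MN n` -/
theorem high_modes (hM : MNFacts) (hMo : ModeFacts) (n : ℕ) :
    ∃ K₀ : ℕ, ∀ K, K₀ ≤ K → ∀ y ∈ SNk K n, y = 0 := by
  have := hM.finite n
  obtain ⟨K₀, h⟩ := eig_abs (V := MN n)
    { toFun := fun F => ⟨DZ 2 (DZ 2 (F : SF)), hM.Z_mem n _ _ (hM.Z_mem n _ _ F.2)⟩
      map_add' := fun F G => by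
        apply Subtype.ext
        simp
      map_smul' := fun c F => by
        apply Subtype.ext
        simp }
  refine ⟨K₀, fun K hK y hy => ?_⟩
  have h1 := h K hK ⟨y, hy.1.1⟩ (Subtype.ext (hMo.zz K y hy.2))
  exact congrArg Subtype.val h1

/-- the sum of the first modes of the sector -/
def Ssum (m n : ℕ) : ℕ → Submodule ℝ SF
  | 0 => SNk (m * (2 * 0 + 1)) n
  | j + 1 => Ssum m n j ⊔ SNk (m * (2 * (j + 1) + 1)) n

theorem SNk_le_Ssum (m n : ℕ) {i j : ℕ} (h : i ≤ j) : SNk (m * (2 * i + 1)) n ≤ Ssum m n j := by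
  induction j with
  | zero =>
    have : i = 0 := by omega
    subst this; exact le_rfl
  | succ j ih =>
    rcases Nat.lt_or_ge i (j + 1) with h1 | h1
    · exact (ih (by omega)).trans le_sup_left
    · have : i = j + 1 := by omega
      subst this
      exact le_sup_right

theorem Ssum_le {m n : ℕ} (hm : 1 ≤ m) (j : ℕ) : Ssum m n j ≤ SecN m n := by
  induction j with
  | zero => exact SNk_le_SecN hm ⟨0, rfl⟩
  | succ j ih => exact sup_le ih (SNk_le_SecN hm ⟨j + 1, rfl⟩)

theorem le_Ssum (hM : MNFacts) (hMo : ModeFacts) {m : ℕ} (hm : 1 ≤ m) (n : ℕ) :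
    ∃ N, SecN m n ≤ Ssum m n N := by
  obtain ⟨K₀, hK₀⟩ := high_modes hM hMo n
  refine ⟨K₀, fun y hy => ?_⟩
  choose P hP1 hP2 using fun i : ℕ => proj_mem hM (m := m) (n := n) (k := 2 * i + 1) hm ⟨i, rfl⟩ hy
  set s : SF := ∑ i ∈ Finset.range (K₀ + 1), P i with hs
  have hs1 : s ∈ Ssum m n K₀ := by
    apply Submodule.sum_mem
    intro i hi
    exact SNk_le_Ssum m n (by have := Finset.mem_range.1 hi; omega) (hP1 i)
  have hs2 : s ∈ SecN m n := Ssum_le hm K₀ hs1
  have ho : ∀ z ∈ SecN m n, Orb m z := fun z hz => orb_of_SF hz.2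
  suffices h : y - s = 0 by
    rw [sub_eq_zero.1 h]; exact hs1
  apply SF.ext'
  intro x hx
  rw [SF.zero_apply]
  have hys : y - s ∈ SecN m n := Submodule.sub_mem _ hy hs2
  apply zero_of_pj hm (ho _ hys) _ hx
  rintro k ⟨j, rfl⟩ x _
  have e1 : ((y - s : SF) : ℍ → ℝ) = fun x => y x - s x := by
    funext x; rw [SF.sub_apply]
  rw [e1, pj_sub (ho y hy) (ho s hs2)]
  -- the projection of `s`
  have hadd : ∀ (t : Finset ℕ), pj m (m * (2 * j + 1)) (∑ i ∈ t, P i : SF) x
      = ∑ i ∈ t, pj m (m * (2 * j + 1)) (P i) x := by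
    intro t
    simp only [pj, ← Finset.mul_sum]
    congr 1
    rw [← intervalIntegral.integral_finsetSum]
    · congr 1
      funext α
      rw [SF.sum_apply, Finset.mul_sum]
    · intro i _
      have c1 : Continuous fun α : ℝ => Real.cos ((m * (2 * j + 1) : ℕ) * α) := by fun_prop
      exact (c1.mul ((ho _ (SNk_le_SecN hm ⟨i, rfl⟩ (hP1 i))).cont x)).intervalIntegrable _ _
  rw [hs, hadd]
  have h2 : ∀ i, pj m (m * (2 * j + 1)) (P i) x = if i = j then P i x else 0 := by
    intro i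
    rw [pj_of_mode hm ⟨j, rfl⟩ (ho _ (SNk_le_SecN hm ⟨i, rfl⟩ (hP1 i))) (hP1 i).2]
    have : 2 * i + 1 = 2 * j + 1 ↔ i = j := by omega
    simp only [this]
  simp_rw [h2]
  rw [Finset.sum_ite_eq']
  split_ifs with h3
  · rw [hP2, sub_self]
  · rw [sub_zero, ← hP2, hK₀ _ _ _ (hP1 j), SF.zero_apply]
    have : ¬ j < K₀ + 1 := fun h => h3 (Finset.mem_range.2 h)
    nlinarith

theorem orth_Ssum (hM : MNFacts) (hP : PsiFacts) {w : ℍ → ℝ} (hw : Cts w) (hwr : RotInv w)
    {m : ℕ} (hm : 1 ≤ m) (n : ℕ) (j : ℕ) : ∀ y ∈ Ssum m n j, ∀ i, j < i →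
      ∀ η ∈ SNk (m * (2 * i + 1)) n, Bil w y η = 0 ∧ Bil w η y = 0 := by
  induction j with
  | zero =>
    intro y hy i hi η hη
    have hne : m * (2 * 0 + 1) ≠ m * (2 * i + 1) := by
      intro h
      have := Nat.eq_of_mul_eq_mul_left hm h
      omega
    exact ⟨Bil_orth hM hP hw hwr hne hy hη, Bil_orth hM hP hw hwr hne.symm hη hy⟩
  | succ j ih =>
    intro y hy i hi η hη
    obtain ⟨y₁, hy₁, y₂, hy₂, rfl⟩ := Submodule.mem_sup.1 hy
    have hne : m * (2 * (j + 1) + 1) ≠ m * (2 * i + 1) := by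
      intro h
      have := Nat.eq_of_mul_eq_mul_left hm h
      omega
    have h1 := ih y₁ hy₁ i (by omega) η hη
    have hU : ∀ z ∈ SecN m n, z ∈ UN n := fun z hz => hz.1
    have u1 : y₁ ∈ UN n := hU _ (Ssum_le hm j hy₁)
    refine ⟨?_, ?_⟩
    · rw [H72.Bil_add_left hw, h1.1, Bil_orth hM hP hw hwr hne hy₂ hη, add_zero]
    · rw [H72.Bil_add_right hP hw η u1 hy₂.1, h1.2,
        Bil_orth hM hP hw hwr hne.symm hη hy₂, add_zero]

/-- the second part of FOUR -/
theorem det_part (hM : MNFacts) (hP : PsiFacts) (hD : DetFacts) (hMo : ModeFacts) (m n : ℕ)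
    (w : ℍ → ℝ) (hm : 1 ≤ m) (hw : Cts w) (hwr : RotInv w) (hn : NegDet (SNk m n) w)
    (hp : ∀ k : ℕ, Odd k → 1 < k → PosDet (SNk (m * k) n) w) : NegDet (SecN m n) w := by
  obtain ⟨N, hN⟩ := le_Ssum hM hMo hm n
  have hall : ∀ j, NegDet (Ssum m n j) w := by
    intro j
    induction j with
    | zero =>
      have : Ssum m n 0 = SNk m n := by simp [Ssum]
      rw [this]; exact hn
    | succ j ih =>
      have hpos := hp (2 * (j + 1) + 1) ⟨j + 1, rfl⟩ (by omega)
      have horth := orth_Ssum hM hP hw hwr hm n j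
      apply negDet_sup (fun y hy η hη => (horth y hy (j + 1) (by omega) η hη).1)
        (fun y hy η hη => (horth η hη (j + 1) (by omega) y hy).2) _ ih hpos
      rw [Submodule.disjoint_def]
      intro z hz1 hz2
      exact hD.nonsing (SNk (m * (2 * (j + 1) + 1)) n) n w hw (fun _ h => h.1) (Or.inl hpos) z hz2
        fun η hη => (horth z hz1 (j + 1) (by omega) η hη).1
  have : SecN m n = Ssum m n N := le_antisymm hN (Ssum_le hm N)
  rw [this]
  exact hall N

/-- **FOUR.** -/
theorem four_of (hM : MNFacts) (hP : PsiFacts) (hD : DetFacts) (hMo : ModeFacts) : FourFacts where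
  ker := fun m w hm hw _ hwr h => ker_part m w hm hw hwr h
  det := fun m n w hm hw _ hwr hn hp => det_part hM hP hD hMo m n w hm hw hwr hn hp

end Pool.Agent.MP85963d.H19
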